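import Pool.Agent.helper20.Family

/-!
# A maximal filter of projections in the Calkin algebra that does not lift

For every separable infinite-dimensional complex Hilbert space `H` there is a maximal filter of
projections of the Calkin algebra `B(H) / K(H)` that does not lift to `B(H)`.
-/

namespace Pool.Agent.Results.MP_10cf3c_an.NonLiftingMaximalFilter

open TopologicalSpace

section General

variable {A : Type*} [Ring A] [StarRing A]

/-- The order on projections: `p ≤ q` iff `p q = p`. -/
def ProjLE (p q : A) : Prop := p * q = p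

/-- A filter in the set of projections of the star ring `A`: a set of projections that is
downward directed and upward closed among projections. -/
structure IsProjFilter (F : Set A) : Prop where
  isProj : ∀ p ∈ F, IsStarProjection p
  directed : ∀ p ∈ F, ∀ q ∈ F, ∃ r ∈ F, ProjLE r p ∧ ProjLE r q
  upward : ∀ p ∈ F, ∀ r, IsStarProjection r → ProjLE p r → r ∈ F

/-- A maximal filter: a proper filter (one not containing `0`) that is not strictly contained
in another proper filter. -/
structure IsMaximalProjFilter (F : Set A) : Prop where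
  isFilter : IsProjFilter F
  proper : (0 : A) ∉ F
  maximal : ∀ G : Set A, IsProjFilter G → (0 : A) ∉ G → F ⊆ G → G = F

/-- The family generated by `X`: the intersection of all filters containing `X`. -/
def generated (X : Set A) : Set A := ⋂₀ {F | IsProjFilter F ∧ X ⊆ F}

end General

section Calkin

variable (H : Type*) [NormedAddCommGroup H] [InnerProductSpace ℂ H] [CompleteSpace H]

/-- The ideal `K(H)` of compact operators in `B(H)`. -/
def compactIdeal : Ideal (H →L[ℂ] H) where
  carrier := {T | IsCompactOperator T}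
  add_mem' := fun hS hT => IsCompactOperator.add hS hT
  zero_mem' := isCompactOperator_zero
  smul_mem' := fun S _ hT => IsCompactOperator.clm_comp hT S

instance : (compactIdeal H).IsTwoSided :=
  ⟨fun {S} T hS => IsCompactOperator.comp_clm (f := S) hS T⟩

/-- The Calkin algebra `B(H) / K(H)`. -/
def Calkin : Type _ := (H →L[ℂ] H) ⧸ compactIdeal H

noncomputable instance : Ring (Calkin H) :=
  inferInstanceAs (Ring ((H →L[ℂ] H) ⧸ compactIdeal H))

/-- The quotient map `π : B(H) → B(H) / K(H)`. -/
noncomputable def toCalkin : (H →L[ℂ] H) →+* Calkin H := Ideal.Quotient.mk (compactIdeal H)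

variable {H}

theorem toCalkin_surjective : Function.Surjective (toCalkin H) := Ideal.Quotient.mk_surjective

theorem toCalkin_eq_iff {S T : H →L[ℂ] H} :
    toCalkin H S = toCalkin H T ↔ IsCompactOperator (S - T : H →L[ℂ] H) :=
  Ideal.Quotient.eq

theorem isCompactOperator_star {T : H →L[ℂ] H} (hT : IsCompactOperator T) :
    IsCompactOperator (star T : H →L[ℂ] H) :=
  Pool.Agent.Helper20.isCompactOperator_adjoint hT

variable (H)

/-- The involution of the Calkin algebra, `(π T)^* = π (T^*)`. -/
noncomputable instance : Star (Calkin H) :=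
  ⟨Quotient.lift (fun T : H →L[ℂ] H => toCalkin H (star T)) (by
    intro S T h
    have h1 : toCalkin H S = toCalkin H T := Quotient.sound h
    rw [toCalkin_eq_iff] at h1
    show toCalkin H (star S) = toCalkin H (star T)
    rw [toCalkin_eq_iff, ← star_sub]
    exact isCompactOperator_star h1)⟩

variable {H}

theorem star_toCalkin (T : H →L[ℂ] H) : star (toCalkin H T) = toCalkin H (star T) := rfl

noncomputable instance : StarRing (Calkin H) where
  star_involutive := by
    intro a
    obtain ⟨T, rfl⟩ := toCalkin_surjective a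
    rw [star_toCalkin, star_toCalkin, star_star]
  star_mul := by
    intro a b
    obtain ⟨S, rfl⟩ := toCalkin_surjective a
    obtain ⟨T, rfl⟩ := toCalkin_surjective b
    rw [← map_mul, star_toCalkin, star_mul, map_mul, star_toCalkin, star_toCalkin]
  star_add := by
    intro a b
    obtain ⟨S, rfl⟩ := toCalkin_surjective a
    obtain ⟨T, rfl⟩ := toCalkin_surjective b
    rw [← map_add, star_toCalkin, star_add, map_add, star_toCalkin, star_toCalkin]

/-- A filter of projections of the Calkin algebra lifts if it is the image of the family generated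
by a family of pairwise commuting projections of `B(H)`, this family being a filter. -/
def Lifts (F : Set (Calkin H)) : Prop :=
  ∃ X : Set (H →L[ℂ] H), (∀ p ∈ X, IsStarProjection p) ∧ (∀ p ∈ X, ∀ q ∈ X, p * q = q * p) ∧
    IsProjFilter (generated X) ∧ toCalkin H '' generated X = F

end Calkin

section Proof

open Pool.Agent.Helper20

variable {A : Type*} [Ring A] [StarRing A]

theorem exists_maximal {G : Set A} (hG : IsProjFilter G) (hG0 : (0 : A) ∉ G) :
    ∃ F, G ⊆ F ∧ IsMaximalProjFilter F := by
  let S : Set (Set A) := {F | IsProjFilter F ∧ (0 : A) ∉ F}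
  obtain ⟨F, hGF, hF⟩ := zorn_subset_nonempty S (fun c hc hchain _ => by
    refine ⟨⋃₀ c, ⟨⟨?_, ?_, ?_⟩, ?_⟩, fun s hs => Set.subset_sUnion_of_mem hs⟩
    · rintro p ⟨s, hs, hp⟩
      exact (hc hs).1.isProj p hp
    · rintro p ⟨s, hs, hp⟩ q ⟨t, ht, hq⟩
      rcases hchain.total hs ht with h | h
      · obtain ⟨r, hr, h1, h2⟩ := (hc ht).1.directed p (h hp) q hq
        exact ⟨r, ⟨t, ht, hr⟩, h1, h2⟩
      · obtain ⟨r, hr, h1, h2⟩ := (hc hs).1.directed p hp q (h hq)
        exact ⟨r, ⟨s, hs, hr⟩, h1, h2⟩
    · rintro p ⟨s, hs, hp⟩ r hr hpr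
      exact ⟨s, hs, (hc hs).1.upward p hp r hr hpr⟩
    · rintro ⟨s, hs, h0⟩
      exact (hc hs).2 h0) G ⟨hG, hG0⟩
  refine ⟨F, hGF, hF.prop.1, hF.prop.2, fun G' hG' hG'0 hFG' => ?_⟩
  exact Set.Subset.antisymm (hF.le_of_ge ⟨hG', hG'0⟩ hFG') hFG'

variable {H : Type*} [NormedAddCommGroup H] [InnerProductSpace ℂ H] [CompleteSpace H]

theorem isStarProjection_toCalkin {p : H →L[ℂ] H} (hp : IsStarProjection p) :
    IsStarProjection (toCalkin H p) := by
  refine ⟨?_, ?_⟩
  · show toCalkin H p * toCalkin H p = toCalkin H p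
    rw [← map_mul, hp.isIdempotentElem.eq]
  · show star (toCalkin H p) = toCalkin H p
    rw [star_toCalkin, hp.isSelfAdjoint.star_eq]

theorem toCalkin_eq_zero_iff {T : H →L[ℂ] H} : toCalkin H T = 0 ↔ IsCompactOperator T := by
  rw [← map_zero (toCalkin H), toCalkin_eq_iff, sub_zero]

/-- **Main theorem.** On every separable infinite-dimensional complex Hilbert space, some maximal
filter of projections of the Calkin algebra does not lift. -/
theorem result (H : Type*) [NormedAddCommGroup H] [InnerProductSpace ℂ H] [CompleteSpace H]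
    [SeparableSpace H] (hH : ¬ FiniteDimensional ℂ H) :
    ∃ F : Set (Calkin H), IsMaximalProjFilter F ∧ ¬ Lifts F := by
  classical
  obtain ⟨M, hMc, hMinf, hMD⟩ := exists_family hH
  have hcl : ∀ E : Finset {D : Set (H →L[ℂ] H) // MaxComm D},
      IsClosed ((⨅ D ∈ E, M D : Submodule ℂ H) : Set H) := by
    intro E
    have : ((⨅ D ∈ E, M D : Submodule ℂ H) : Set H) = ⋂ D ∈ E, (M D : Set H) := by
      ext x; simp
    rw [this]
    exact isClosed_biInter fun D _ => hMc D
  have hproj : ∀ E : Finset {D : Set (H →L[ℂ] H) // MaxComm D}, ∃ h : H →L[ℂ] H,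
      IsStarProjection h ∧ LinearMap.range (h : H →ₗ[ℂ] H) = (⨅ D ∈ E, M D : Submodule ℂ H) := by
    intro E
    have := (hcl E).completeSpace_coe
    exact ⟨(⨅ D ∈ E, M D : Submodule ℂ H).starProjection, isStarProjection_starProjection,
      Submodule.range_starProjection _⟩
  choose h hh hhr using hproj
  have hmul : ∀ E E', E ⊆ E' → h E' * h E = h E' := by
    intro E E' hEE'
    have h1 : ∀ z, h E (h E' z) = h E' z := by
      intro z
      have h2 : h E' z ∈ LinearMap.range (h E : H →ₗ[ℂ] H) := by
        rw [hhr E]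
        have h3 : h E' z ∈ (⨅ D ∈ E', M D : Submodule ℂ H) := by
          rw [← hhr E']; exact ⟨z, rfl⟩
        rw [Submodule.mem_iInf] at h3 ⊢
        intro D
        have h4 := h3 D
        rw [Submodule.mem_iInf] at h4 ⊢
        exact fun hD => h4 (hEE' hD)
      obtain ⟨w, hw⟩ := h2
      have h5 : h E (h E w) = h E w := by
        have := congrArg (fun T : H →L[ℂ] H => T w) (hh E).isIdempotentElem
        simpa using this
      have hw' : h E w = h E' z := hw
      rw [← hw', h5]
    have h6 : h E * h E' = h E' := by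
      ext z
      simpa using h1 z
    have h7 := congrArg star h6
    rw [star_mul, (hh E).isSelfAdjoint.star_eq, (hh E').isSelfAdjoint.star_eq] at h7
    exact h7
  -- the filter generated by the projections
  let G : Set (Calkin H) := {r | IsStarProjection r ∧ ∃ E, toCalkin H (h E) * r = toCalkin H (h E)}
  have hG : IsProjFilter G := by
    refine ⟨fun p hp => hp.1, ?_, ?_⟩
    · rintro p ⟨_, E, hE⟩ q ⟨_, E', hE'⟩
      refine ⟨toCalkin H (h (E ∪ E')), ⟨isStarProjection_toCalkin (hh _), E ∪ E', ?_⟩, ?_, ?_⟩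
      · rw [← map_mul, (hh _).isIdempotentElem.eq]
      · show toCalkin H (h (E ∪ E')) * p = toCalkin H (h (E ∪ E'))
        rw [← hmul E (E ∪ E') Finset.subset_union_left, map_mul, mul_assoc, hE]
      · show toCalkin H (h (E ∪ E')) * q = toCalkin H (h (E ∪ E'))
        rw [← hmul E' (E ∪ E') Finset.subset_union_right, map_mul, mul_assoc, hE']
    · rintro p ⟨_, E, hE⟩ r hr hpr
      refine ⟨hr, E, ?_⟩
      have hpr' : p * r = p := hpr
      calc toCalkin H (h E) * r = (toCalkin H (h E) * p) * r := by rw [hE]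
        _ = toCalkin H (h E) * (p * r) := mul_assoc _ _ _
        _ = toCalkin H (h E) := by rw [hpr', hE]
  have hG0 : (0 : Calkin H) ∉ G := by
    rintro ⟨_, E, hE⟩
    rw [mul_zero] at hE
    have h1 := toCalkin_eq_zero_iff.mp hE.symm
    have h2 := finiteDimensional_range_of_compact (hh E).isIdempotentElem h1
    rw [hhr E] at h2
    exact hMinf E h2
  obtain ⟨F, hGF, hF⟩ := exists_maximal hG hG0
  refine ⟨F, hF, ?_⟩
  rintro ⟨X, hXp, hXc, hgen, hXF⟩
  obtain ⟨D, hXD, hD⟩ := exists_maxComm_superset X hXp (fun p hp q hq => hXc p hp q hq)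
  let D' : {D : Set (H →L[ℂ] H) // MaxComm D} := ⟨D, hD⟩
  have hE1 : (⨅ D ∈ ({D'} : Finset {D : Set (H →L[ℂ] H) // MaxComm D}), M D : Submodule ℂ H)
      = M D' := by simp
  -- the projection attached to `D` belongs to the filter
  have h1 : toCalkin H (h {D'}) ∈ F := by
    apply hGF
    refine ⟨isStarProjection_toCalkin (hh _), {D'}, ?_⟩
    rw [← map_mul, (hh _).isIdempotentElem.eq]
  rw [← hXF] at h1
  obtain ⟨r, hr, hrh⟩ := h1
  -- elements of the generated filter lie above elements of `D` in the generated filter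
  let FD : Set (H →L[ℂ] H) := {r | IsStarProjection r ∧ ∃ q ∈ D, q ∈ generated X ∧ q * r = q}
  have hFD : IsProjFilter FD := by
    refine ⟨fun p hp => hp.1, ?_, ?_⟩
    · rintro p ⟨_, q, hqD, hqX, hqp⟩ p' ⟨_, q', hqD', hqX', hqp'⟩
      obtain ⟨s, hs, hsq, hsq'⟩ := hgen.directed q hqX q' hqX'
      have hsq1 : s * q = s := hsq
      have hsq1' : s * q' = s := hsq'
      have hmem : q * q' ∈ D := hD.mul_mem hqD hqD'
      have hgenm : q * q' ∈ generated X := by
        apply hgen.upward s hs _ (hD.proj _ hmem)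
        show s * (q * q') = s
        rw [← mul_assoc, hsq1, hsq1']
      refine ⟨q * q', ⟨hD.proj _ hmem, q * q', hmem, hgenm, (hD.proj _ hmem).isIdempotentElem⟩,
        ?_, ?_⟩
      · show q * q' * p = q * q'
        rw [(hD.comm q hqD q' hqD').eq, mul_assoc, hqp]
      · show q * q' * p' = q * q'
        rw [mul_assoc, hqp']
    · rintro p ⟨_, q, hqD, hqX, hqp⟩ s hs hps
      refine ⟨hs, q, hqD, hqX, ?_⟩
      have hps' : p * s = p := hps
      calc q * s = (q * p) * s := by rw [hqp]
        _ = q * (p * s) := mul_assoc _ _ _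
        _ = q := by rw [hps', hqp]
  have hXFD : X ⊆ FD := by
    intro p hp
    refine ⟨hXp p hp, p, hXD hp, ?_, (hXp p hp).isIdempotentElem⟩
    rintro F' ⟨_, hF'⟩
    exact hF' hp
  have hrFD : r ∈ FD := hr FD ⟨hFD, hXFD⟩
  obtain ⟨_, q, hqD, hqX, hqr⟩ := hrFD
  have hqF : toCalkin H q ∈ F := by
    rw [← hXF]; exact ⟨q, hqX, rfl⟩
  have hq0 : ¬ IsCompactOperator q := by
    intro hc
    rw [toCalkin_eq_zero_iff.mpr hc] at hqF
    exact hF.proper hqF
  apply hq0
  apply compact_of_finiteDimensional_range
  apply hMD D' q hqD (h {D'}) (hh _) (by rw [hhr, hE1])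
  have h2 : toCalkin H (q * h {D'}) = toCalkin H q := by
    rw [map_mul, ← hrh, ← map_mul, hqr]
  have h3 : toCalkin H (h {D'} * q) = toCalkin H q := by
    have h4 := congrArg star h2
    rw [star_toCalkin, star_toCalkin, star_mul, (hh _).isSelfAdjoint.star_eq,
      (hD.proj q hqD).isSelfAdjoint.star_eq] at h4
    exact h4
  have h5 : IsCompactOperator (q - h {D'} * q : H →L[ℂ] H) := toCalkin_eq_iff.mp h3.symm
  have h6 : ((1 - h {D'}) * q : H →L[ℂ] H) = q - h {D'} * q := by
    rw [sub_mul, one_mul]
  rw [h6]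
  exact h5

end Proof

end Pool.Agent.Results.MP_10cf3c_an.NonLiftingMaximalFilter
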